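import Pool.Agent.Q136.NCC.Fin

set_option autoImplicit false

open Finset Polynomial

namespace Pool.Agent.Q136.NCC

open Pool.Agent.Q136.RNC

theorem pr_ne_zero' {F : Type} [Field F] (S : Finset F) : pr S ≠ 0 :=
  Finset.prod_ne_zero_iff.2 (fun s _ => X_sub_C_ne_zero s)

theorem pr_natDegree' {F : Type} [Field F] (S : Finset F) : (pr S).natDegree = S.card := by
  unfold pr
  rw [Polynomial.natDegree_prod_of_monic _ _ (fun s _ => monic_X_sub_C s)]
  simp

theorem fn_apply {F : Type} [Field F] {k : ℕ} (x : Fin k → F) (f : F[X]) :
    fn x f = ∑ i : Fin k, x i * f.coeff i := by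
  rw [fn, LinearMap.sum_apply]
  simp

/-- the functional of a point of the curve is the evaluation -/
theorem fn_nrc {F : Type} [Field F] {k : ℕ} (s : F) (f : F[X]) (hf : f.natDegree < k) :
    fn (nrc k (some s)) f = f.eval s := by
  rw [fn_apply, Polynomial.eval_eq_sum_range' hf, ← Fin.sum_univ_eq_sum_range (fun i => f.coeff i * s ^ i) k]
  apply Finset.sum_congr rfl
  intro i _
  simp [nrc, mul_comm]

theorem t_PTA (hN : S_NAR) : S_PTA := by
  classical
  intro F _ k P T hk hfree S hS
  by_cases hnone : (none : Option T) ∈ S
  · set v : Option T → Fin k → F := fun i => match i with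
      | none => P
      | some s => nrc k (some (s : F)) with hv
    -- the points of the curve
    set R : Finset F := (S.preimage some (Option.some_injective _).injOn).map (Function.Embedding.subtype _) with hR
    have hRT : R ⊆ T := by
      intro x hx
      rw [hR, Finset.mem_map] at hx
      obtain ⟨s, -, rfl⟩ := hx
      exact s.2
    have hSR : S = insert none ((S.preimage some (Option.some_injective _).injOn).map
        ⟨some, Option.some_injective _⟩) := by
      ext i
      rcases i with _ | s
      · simp [hnone]
      · simp
    have hRc : R.card + 1 = k := by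
      rw [hR, Finset.card_map]
      have h1 := congrArg Finset.card hSR
      rw [Finset.card_insert_of_notMem (by simp), Finset.card_map] at h1
      omega
    change LinearIndependent F (fun i : S => v i)
    by_contra hcon
    -- a hyperplane which contains the vectors
    have hspan : Submodule.span F (Set.range (fun i : S => v i)) ≠ ⊤ := by
      intro htop
      apply hcon
      apply linearIndependent_of_top_le_span_of_card_eq_finrank htop.ge
      rw [Fintype.card_coe, hS, Module.finrank_fin_fun]
    obtain ⟨g, hg0, hg⟩ := Submodule.exists_le_ker_of_lt_top _ (lt_top_iff_ne_top.2 hspan)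
    set z : Fin k → F := fun j => g (Pi.single j 1) with hz
    have hgx : ∀ x : Fin k → F, g x = ∑ j, x j * z j := by
      intro x
      conv_lhs => rw [← Finset.univ_sum_single x]
      rw [map_sum]
      apply Finset.sum_congr rfl
      intro j _
      have : (Pi.single j (x j) : Fin k → F) = x j • Pi.single j 1 := by
        ext l
        simp [Pi.single_apply]
      rw [this, map_smul, smul_eq_mul]
    set f : F[X] := ∑ j : Fin k, C (z j) * X ^ (j : ℕ) with hf
    have hfc : ∀ j : Fin k, f.coeff j = z j := by
      intro j
      rw [hf, finsetSum_coeff]
      simp only [coeff_C_mul, coeff_X_pow]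
      rw [Finset.sum_eq_single j]
      · simp
      · intro b _ hb
        rw [if_neg, mul_zero]
        intro h
        exact hb (Fin.ext h.symm)
      · simp
    have hfd : f.natDegree < k := by
      have : f.degree < k := by
        rw [hf]
        apply (degree_sum_le _ _).trans_lt
        rw [Finset.sup_lt_iff (by exact_mod_cast WithBot.bot_lt_coe k)]
        intro j _
        exact (degree_C_mul_X_pow_le _ _).trans_lt (by exact_mod_cast j.2)
      by_cases hf0 : f = 0
      · rw [hf0, natDegree_zero]
        omega
      · exact (natDegree_lt_iff_degree_lt hf0).2 this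
    have hf0 : f ≠ 0 := by
      intro h0
      apply hg0
      ext x
      rw [LinearMap.comp_apply, hgx]
      simp only [LinearMap.zero_apply, LinearMap.comp_apply]
      apply Finset.sum_eq_zero
      intro j _
      rw [← hfc j, h0, coeff_zero, mul_zero]
    have hgf : ∀ x : Fin k → F, g x = fn x f := by
      intro x
      rw [hgx, fn_apply]
      apply Finset.sum_congr rfl
      intro j _
      rw [hfc]
    have hmem : ∀ i ∈ S, g (v i) = 0 := by
      intro i hi
      have h1 : v i ∈ Submodule.span F (Set.range (fun i : S => v i)) := Submodule.subset_span ⟨⟨i, hi⟩, rfl⟩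
      exact hg h1
    have hroots : ∀ s ∈ R, f.eval s = 0 := by
      intro s hs
      rw [hR, Finset.mem_map] at hs
      obtain ⟨s', hs', rfl⟩ := hs
      rw [Finset.mem_preimage] at hs'
      have h1 := hmem (some s') hs'
      rw [hgf] at h1
      rw [← fn_nrc _ f hfd]
      exact h1
    have hdvd : pr R ∣ f := by
      unfold pr
      apply Finset.prod_dvd_of_coprime
      · intro a _ b _ hab
        exact pairwise_coprime_X_sub_C (s := (id : F → F)) Function.injective_id hab
      · intro s hs
        exact dvd_iff_isRoot.2 (hroots s hs)
    obtain ⟨u, hu⟩ := hdvd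
    have hu0 : u ≠ 0 := by
      rintro rfl
      exact hf0 (by rw [hu, mul_zero])
    have hud : u.natDegree = 0 := by
      have h1 := hfd
      rw [hu, natDegree_mul (pr_ne_zero' R) hu0, pr_natDegree'] at h1
      omega
    obtain ⟨c, rfl⟩ : ∃ c : F, u = C c := ⟨_, (natDegree_eq_zero.1 hud).choose_spec.symm⟩
    have hc0 : c ≠ 0 := by
      rintro rfl
      exact hu0 C_0
    have h1 := hmem none hnone
    rw [hgf] at h1
    change fn P f = 0 at h1
    rw [hu, mul_comm, ← smul_eq_C_mul, map_smul, smul_eq_mul, mul_eq_zero] at h1
    exact hfree R hRT hRc (h1.resolve_left hc0)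
  · -- only points of the curve
    have hall : ∀ i : S, ∃ s : T, (i : Option T) = some s := by
      rintro ⟨i, hi⟩
      rcases i with _ | s
      · exact absurd hi hnone
      · exact ⟨s, rfl⟩
    choose g hg using hall
    have hginj : Function.Injective g := by
      intro a b hab
      apply Subtype.ext
      rw [hg a, hg b, hab]
    have h1 := hN F S k (fun i => some ((g i : T) : F)) (by
      intro a b hab
      exact hginj (Subtype.ext (Option.some_injective _ hab)))
    have h2 := h1 univ (by rw [Finset.card_univ, Fintype.card_coe, hS])
    have h3 := h2.comp (fun i : S => (⟨i, Finset.mem_univ i⟩ : (univ : Finset S))) (by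
      intro a b hab
      exact congrArg Subtype.val hab)
    have h4 : (fun i : S => (match (i : Option T) with
        | none => P
        | some s => nrc k (some (s : F)) : Fin k → F)) = fun i : S => nrc k (some ((g i : T) : F)) := by
      funext i
      rw [hg i]
    convert h3 using 1
    funext i
    have h5 := congrFun h4 i
    simp only [Function.comp] at h5 ⊢
    exact h5

end Pool.Agent.Q136.NCC
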