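import Pool.Agent.Q136.NCC.PTA

set_option autoImplicit false

open Finset Polynomial

namespace Pool.Agent.Q136.NCC

open Pool.Agent.Q136.RNC
open scoped LinearAlgebra.Projectivization

theorem t_TRA : S_TRA := by
  classical
  intro F _ _ k n K hk hK hn
  set e : K ≃ Fin n := Finset.equivFinOfCardEq hn with he
  set v : Fin n → Fin k → F := fun i => ((e.symm i : K) : ℙ F (Fin k → F)).rep with hv
  have hnrc : ∀ t : Option F, nrc k t ≠ 0 := by
    intro t h0
    rcases t with _ | s
    · have := congrFun h0 ⟨k - 1, by omega⟩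
      have hk1 : (k - 1 + 1 = k) := by omega
      simp only [nrc, if_pos hk1, Pi.zero_apply] at this
      exact one_ne_zero this
    · have := congrFun h0 ⟨0, by omega⟩
      simp only [nrc, pow_zero, Pi.zero_apply] at this
      exact one_ne_zero this
  set G : Set (ℙ F (Fin k → F)) → Set (Fin k → F) := fun A => {x | ∃ h : x ≠ 0, Projectivization.mk F x h ∈ A} with hG
  have hGrep : ∀ (A : Set (ℙ F (Fin k → F))) (p : ℙ F (Fin k → F)), p.rep ∈ G A ↔ p ∈ A := by
    intro A p
    constructor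
    · rintro ⟨h, hp⟩
      rwa [Projectivization.mk_rep] at hp
    · intro hp
      refine ⟨p.rep_nonzero, ?_⟩
      rwa [Projectivization.mk_rep]
  have hGinj : Function.Injective G := by
    intro A A' hAA
    ext p
    rw [← hGrep A p, ← hGrep A' p, hAA]
  have hGcone : ∀ φ : (Fin k → F) ≃ₗ[F] (Fin k → F), G {p | ∃ t : Option F, ∃ h : φ (nrc k t) ≠ 0,
      p = Projectivization.mk F (φ (nrc k t)) h} = cone φ := by
    intro φ
    ext x
    constructor
    · rintro ⟨h, t, h', hp⟩
      rw [Projectivization.mk_eq_mk_iff'] at hp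
      obtain ⟨c, hc⟩ := hp
      refine ⟨t, c, ?_, hc.symm⟩
      rintro rfl
      rw [zero_smul] at hc
      exact h hc.symm
    · rintro ⟨t, c, hc, hx⟩
      have h' : φ (nrc k t) ≠ 0 := by
        intro h
        apply hnrc t
        rw [← LinearEquiv.symm_apply_apply φ (nrc k t), h, map_zero]
      have h : x ≠ 0 := by
        rw [hx]
        exact smul_ne_zero hc h'
      refine ⟨h, t, h', ?_⟩
      rw [Projectivization.mk_eq_mk_iff']
      exact ⟨c, hx.symm⟩
  refine ⟨v, ?_, ?_⟩
  · intro S hS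
    have hinj : Function.Injective (fun i : Fin n => ((e.symm i : K) : ℙ F (Fin k → F))) :=
      Subtype.val_injective.comp e.symm.injective
    have h1 := hK.2 (S.map ⟨_, hinj⟩) (by
      intro p hp
      rw [Finset.mem_map] at hp
      obtain ⟨i, -, rfl⟩ := hp
      exact (e.symm i).2) (by rw [Finset.card_map, hS])
    have h2 := h1.comp (fun i : S => (⟨((e.symm i : K) : ℙ F (Fin k → F)), by
      rw [Finset.mem_map]
      exact ⟨i, i.2, rfl⟩⟩ : (S.map ⟨_, hinj⟩ : Finset (ℙ F (Fin k → F))))) (by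
      intro a b hab
      have h3 : ((e.symm (a : Fin n) : K) : ℙ F (Fin k → F)) = ((e.symm (b : Fin n) : K) : ℙ F (Fin k → F)) :=
        congrArg (fun z : (S.map ⟨_, hinj⟩ : Finset (ℙ F (Fin k → F))) => (z : ℙ F (Fin k → F))) hab
      exact Subtype.ext (hinj h3))
    exact h2
  · rw [← Set.ncard_image_of_injective _ hGinj]
    congr 1
    ext A
    constructor
    · rintro ⟨A', ⟨⟨φ, rfl⟩, hKA⟩, rfl⟩
      refine ⟨⟨φ, hGcone φ⟩, ?_⟩
      intro i
      exact (hGrep _ _).2 (hKA (Finset.mem_coe.2 (e.symm i).2))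
    · rintro ⟨⟨φ, rfl⟩, hA⟩
      refine ⟨{p | ∃ t : Option F, ∃ h : φ (nrc k t) ≠ 0,
        p = Projectivization.mk F (φ (nrc k t)) h}, ⟨⟨φ, rfl⟩, ?_⟩, hGcone φ⟩
      intro p hp
      have h1 := hA (e ⟨p, Finset.mem_coe.1 hp⟩)
      rw [← hGcone φ] at h1
      have h2 : v (e ⟨p, Finset.mem_coe.1 hp⟩) = p.rep := by
        rw [hv]
        simp
      rw [h2] at h1
      exact (hGrep _ _).1 h1

end Pool.Agent.Q136.NCC
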