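import Pool.Agent.Q136.RNC.Stm2

/-!
# Project NCC: the number of normal rational curves through an arc.  Definitions and statements of the lemma jobs.

`q` is the order of the finite field `F`, `3 ≤ k < q`.  The doc comment of every `S_...` is its complete proof.
`nrc k t` (`Pool/Agent/Q136/RNC/Defs.lean`) are the points of the standard normal rational curve of `PG(k-1, q)`,
`Arc v` (`Pool/Agent/Q136/RNC/Stm2.lean`): every `k` of the vectors `v i` of `F ^ k` are linearly independent.
The library also has `S_NAR` (the curve is an arc), proved as `Pool.Agent.Q68.RNC.t_NAR`; you may import it.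
-/

set_option autoImplicit false

open Finset Polynomial

namespace Pool.Agent.Q136.NCC

open Pool.Agent.Q136.RNC

/-- the fractional linear map `t ↦ (a t + b) / (c t + d)` of the projective line -/
def mo {F : Type} [Field F] [DecidableEq F] (a b c d : F) : Option F → Option F
  | none => if c = 0 then none else some (a / c)
  | some t => if c * t + d = 0 then none else some ((a * t + b) / (c * t + d))

/-- the vectors `x` and `y` are proportional, with a factor not zero -/
def Pr {F : Type} [Field F] {k : ℕ} (x y : Fin k → F) : Prop := ∃ c : F, c ≠ 0 ∧ x = c • y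

/-- the set of the nonzero coordinate vectors of the points of the normal rational curve given by `φ` -/
def cone {F : Type} [Field F] {k : ℕ} (φ : (Fin k → F) ≃ₗ[F] (Fin k → F)) : Set (Fin k → F) :=
  {x | OnCurve φ x}

/-- the (cones over the) normal rational curves which contain all vectors `v i` -/
def thru {F : Type} [Field F] {k : ℕ} {ι : Type} (v : ι → Fin k → F) : Set (Set (Fin k → F)) :=
  {A | (∃ φ : (Fin k → F) ≃ₗ[F] (Fin k → F), A = cone φ) ∧ ∀ i, v i ∈ A}

/-- **MO1** (fractional linear maps).  Proof.  Elementary.  (1) injective: solve for `t`, cases.  (2) For three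
different points `s₀, s₁, s₂` there is a fractional linear map which maps them to `∞, 0, 1`: if all are finite
`t ↦ (t - s₁)(s₂ - s₀) / ((t - s₀)(s₂ - s₁))`; if `s₀ = ∞`: `t ↦ (t - s₁)/(s₂ - s₁)`; if `s₁ = ∞`:
`t ↦ (s₂ - s₀)/(t - s₀)`; if `s₂ = ∞`: `t ↦ (t - s₁)/(t - s₀)`.  (3) `mo ∞ = ∞`: `c = 0`; `mo 0 = 0`: `b = 0`;
`mo 1 = 1`: `a = d`.  (4) the inverse map: `d, -b, -c, a`. -/
def S_MO1 : Prop := ∀ (F : Type) [Field F] [DecidableEq F],
  (∀ a b c d : F, a * d - b * c ≠ 0 → Function.Injective (mo a b c d)) ∧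
  (∀ s₀ s₁ s₂ : Option F, s₀ ≠ s₁ → s₀ ≠ s₂ → s₁ ≠ s₂ → ∃ a b c d : F, a * d - b * c ≠ 0 ∧
    mo a b c d s₀ = none ∧ mo a b c d s₁ = some 0 ∧ mo a b c d s₂ = some 1) ∧
  (∀ a b c d : F, a * d - b * c ≠ 0 → mo a b c d none = none → mo a b c d (some 0) = some 0 →
    mo a b c d (some 1) = some 1 → ∀ t, mo a b c d t = t) ∧
  (∀ a b c d : F, a * d - b * c ≠ 0 → ∀ t, mo d (-b) (-c) a (mo a b c d t) = t)

/-- **MO2** (fractional linear maps act on the curve).  Uses NAR (`S_NAR` of `RNC/Stm2.lean`).  Proof.  Let `M` be the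
linear map of `F^k` with matrix `M i j` = the coefficient of `X^j` in `(aX + b)^i (cX + d)^(k-1-i)` (a polynomial of
degree `≤ k - 1`).  Then `M (nrc k t) i = (at + b)^i (ct + d)^(k-1-i)` for `t ∈ F`: this is
`(ct + d)^(k-1) nrc k ((at + b)/(ct + d)) i` if `ct + d ≠ 0`, and `(at + b)^(k-1) nrc k ∞ i` if `ct + d = 0` (then
`at + b ≠ 0`).  And `M (nrc k ∞) i = a^i c^(k-1-i)` (the coefficient of `X^(k-1)`), which is
`c^(k-1) nrc k (a/c) i` if `c ≠ 0` and `a^(k-1) nrc k ∞ i` if `c = 0`.  `M` is bijective: as `k ≤ q + 1` there are `k`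
different points `t`, their images are nonzero multiples of `nrc k (mo t)`, with `mo` injective (part (1) of MO1), so
they are linearly independent by NAR and `M` is surjective. -/
def S_MO2 : Prop := ∀ (F : Type) [Field F] [Fintype F] [DecidableEq F] (k : ℕ), 1 ≤ k → k ≤ Fintype.card F + 1 →
  ∀ a b c d : F, a * d - b * c ≠ 0 → ∃ Φ : (Fin k → F) ≃ₗ[F] (Fin k → F), ∀ t : Option F,
    Pr (Φ (nrc k t)) (nrc k (mo a b c d t))

/-- **MO3** (rigidity, normalized).  Uses NAR.  Proof.  There are `k` further indices `j` (other than `i₀`, `i₁`) with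
`t j = some (x j)`, `t' j = some (x' j)`, `x j, x' j ≠ 0`, all `x j` different, all `x' j` different.  The vectors
`b_j = nrc k (t j)` are a basis (NAR), same for `b'_j = nrc k (t' j)`.  By Lagrange interpolation
`nrc k ∞ = ∑ u_j b_j`, `u_j = ∏_{l ≠ j} (x_j - x_l)⁻¹`, and `nrc k 0 = ∑ w_j b_j`,
`w_j = ∏_{l ≠ j} (-x_l)/(x_j - x_l) = u_j T / x_j`, `T = (-1)^(k-1) ∏_l x_l ≠ 0` (for every `f` of degree `< k`:
`f(0) = ∑ w_j f(x_j)`, and the coefficient of `X^(k-1)` is `∑ u_j f(x_j)`).  Similarly with `'`.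
`Φ b_j = c_j b'_j`, and `Φ (nrc k ∞) = c_∞ nrc k ∞` gives `u_j c_j = c_∞ u'_j`, `Φ (nrc k 0) = c_0 nrc k 0` gives
`w_j c_j = c_0 w'_j`.  Divide: `T/x_j = (c_0/c_∞) T'/x'_j`, so `x'_j = α x_j` with `α` independent of `j`, `α ≠ 0`.
Let `D = diag(α^i)`, so `D (nrc k t) = nrc k (αt)` and `D (nrc k ∞) = α^(k-1) nrc k ∞`.  `Ψ = D⁻¹ Φ` satisfies
`Ψ b_j = e_j b_j`, `Ψ (nrc k ∞) = e_∞ nrc k ∞`; with `nrc k ∞ = ∑ u_j b_j`, `u_j ≠ 0`, all `e_j = e_∞`, so `Ψ` is the
multiplication by `e_∞` and `Φ = e_∞ D`. -/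
def S_MO3 : Prop := ∀ (F : Type) [Field F] [DecidableEq F] (ι : Type) [Fintype ι] (k : ℕ) (t t' : ι → Option F)
  (Φ : (Fin k → F) ≃ₗ[F] (Fin k → F)) (i₀ i₁ : ι), 1 ≤ k → k + 2 ≤ Fintype.card ι → Function.Injective t →
  Function.Injective t' → t i₀ = none → t' i₀ = none → t i₁ = some 0 → t' i₁ = some 0 →
  (∀ i, Pr (Φ (nrc k (t i))) (nrc k (t' i))) →
  ∃ α : F, α ≠ 0 ∧ ∀ s : Option F, Pr (Φ (nrc k s)) (nrc k (mo α 0 0 1 s))

/-- **MO4** (rigidity).  Uses MO1, MO2, MO3.  Proof.  Take two indices `i₀ ≠ i₁`.  By MO1 (2) (with a third point) there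
are fractional linear maps `μ`, `μ'` with `μ (t i₀) = ∞`, `μ (t i₁) = 0`, `μ' (t' i₀) = ∞`, `μ' (t' i₁) = 0`; let `Φ_μ`,
`Φ_μ'` be the automorphisms of MO2, and apply MO3 to `Φ_μ' Φ Φ_μ⁻¹` and `μ ∘ t`, `μ' ∘ t'`: it acts as `s ↦ α s`, so `Φ`
acts on the curve as `μ'⁻¹ ∘ (α ·) ∘ μ`, which is a fractional linear map (its coefficients: the product of the three
`2 × 2` matrices; `mo` of a product is the composition). -/
def S_MO4 : Prop := ∀ (F : Type) [Field F] [Fintype F] [DecidableEq F] (ι : Type) [Fintype ι] (k : ℕ)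
  (t t' : ι → Option F) (Φ : (Fin k → F) ≃ₗ[F] (Fin k → F)), 1 ≤ k → k ≤ Fintype.card F + 1 →
  k + 2 ≤ Fintype.card ι → Function.Injective t → Function.Injective t' →
  (∀ i, Pr (Φ (nrc k (t i))) (nrc k (t' i))) →
  ∃ a b c d : F, a * d - b * c ≠ 0 ∧ ∀ s : Option F, Pr (Φ (nrc k s)) (nrc k (mo a b c d s))

/-- **FRA** (frames).  Proof.  The `x i`, `i < k`, are a basis, `x k = ∑ α_j x j` with all `α_j ≠ 0` (otherwise `k` of the
vectors are dependent), and `v k = ∑ β_j v j`, `β_j ≠ 0`.  `φ (x j) = (β_j / α_j) v j` for `j < k`; then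
`φ (x k) = v k`. -/
def S_FRA : Prop := ∀ (F : Type) [Field F] (k : ℕ) (x v : Fin (k + 1) → Fin k → F), Arc x → Arc v →
  ∃ φ : (Fin k → F) ≃ₗ[F] (Fin k → F), ∀ i, Pr (v i) (φ (x i))

/-- **UNI** (uniqueness).  Uses MO4, NAR.  Proof.  Let `cone φ` and `cone φ'` contain all `v i`, `v i = c_i φ (nrc k (t i))
= c'_i φ' (nrc k (t' i))`; `t`, `t'` are injective, because different `v i` are not proportional (two of `k ≥ 2`
linearly independent vectors).  `Φ = φ'⁻¹ φ` satisfies the hypothesis of MO4, so it acts on the curve as a fractional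
linear map, `φ (nrc k s)` is proportional to `φ' (nrc k (mo s))`, so `cone φ ⊆ cone φ'`, and the same in the other
direction. -/
def S_UNI : Prop := ∀ (F : Type) [Field F] [Fintype F] (ι : Type) [Fintype ι] (k : ℕ) (v : ι → Fin k → F),
  2 ≤ k → k ≤ Fintype.card F + 1 → k + 2 ≤ Fintype.card ι → Arc v →
  ∀ φ φ' : (Fin k → F) ≃ₗ[F] (Fin k → F), (∀ i, v i ∈ cone φ) → (∀ i, v i ∈ cone φ') → cone φ = cone φ'

/-- **EXI** (existence for `k + 2` points).  Uses FRA, NAR.  Proof.  By FRA there is an automorphism which maps the first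
`k + 1` vectors to nonzero multiples of the unit vectors `e_0, ..., e_(k-1)` and of `(1, ..., 1)` (an arc); so we may
suppose that `v j = e_j` up to factors for `j < k`, `v k = (1, ..., 1)` up to a factor, and let `a = v (k+1)`.  All `a_j`
are nonzero and different (otherwise `k` of the vectors are dependent: `a`, `e_l` for `l ≠ j`; `a`, `(1,...,1)`, `e_l` for
`l ≠ i, j`).  Let `s_j = -1/a_j`.  The linear map `θ` of `F^k` which maps `f`-coordinates: `θ (nrc k s_j) =` a multiple of
`e_j`: let `θ x = (L_j(x))_j`, `L_j` the functional with `L_j (nrc k t) = ∏_{l ≠ j} (t - s_l)` (coefficients of that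
polynomial of degree `k - 1`; `L_j (nrc k ∞) = 1`).  It is bijective (`L_j (nrc k s_i) = 0` for `i ≠ j`, not zero for
`i = j`, and the `nrc k s_i` are a basis).  `θ (nrc k s_j)` is a multiple of `e_j`, `θ (nrc k ∞) = (1, ..., 1)`,
`θ (nrc k 0) = (∏_{l ≠ j} (-s_l))_j = ∏_l (-s_l) (1/(-s_j))_j = ∏_l (-s_l) a`.  So `φ = θ`. -/
def S_EXI : Prop := ∀ (F : Type) [Field F] (k : ℕ) (v : Fin (k + 2) → Fin k → F), 2 ≤ k → Arc v →
  ∃ φ : (Fin k → F) ≃ₗ[F] (Fin k → F), ∀ i, v i ∈ cone φ

/-- **CN1** (curves through a frame).  Uses MO1, MO2, MO4, FRA, NAR.  Proof.  For an injective map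
`g : Fin (k-2) → {x : F // x ≠ 0 ∧ x ≠ 1}` let `t_g = (∞, 0, 1, g 0, g 1, ...)` (`k + 1` different points).  By NAR and
FRA there is `φ_g` such that `v i` is proportional to `φ_g (nrc k (t_g i))`, so `cone φ_g ∈ thru v`.  (a) `g ↦ cone φ_g`
is injective: if `cone φ_g = cone φ_h` then `Φ = φ_h⁻¹ φ_g` maps the curve to the curve (every `φ_g (nrc k s)` is
proportional to some `φ_h (nrc k s')`, `s ↦ s'` is injective as different points of the curve are not proportional),
so by MO4 (`ι = Option F`, `q + 1 ≥ k + 2` points) it acts as a fractional linear map `μ`, with `μ (t_g i) = t_h i` for all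
`i` (`v i` is proportional to `φ_g (nrc k (t_g i))` and to `φ_h (nrc k (t_h i))`); `μ` fixes `∞, 0, 1`, so it is the
identity (MO1 (3)) and `t_g = t_h`.  (b) surjective: let `A = cone φ ∈ thru v`, `v i` proportional to
`φ (nrc k (s i))`, `s` injective; `μ` from MO1 (2) for `s 0, s 1, s 2`, `Φ` from MO2 for `μ`; `φ' = φ Φ⁻¹` satisfies
`cone φ' = cone φ` and `v i` is proportional to `φ' (nrc k (μ (s i)))`, and `μ ∘ s = t_g` for some `g`; `φ'` and `φ_g` agree
up to a common factor (both map the frame `nrc k (t_g i)` to multiples of `v i`; or use MO4-like rigidity / the proof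
of FRA), so `cone φ' = cone φ_g`.  The number of the `g` is `(q-2)(q-3)...(q-k+1)`, the descending factorial
(`Fintype.card_embedding_eq`). -/
def S_CN1 : Prop := ∀ (F : Type) [Field F] [Fintype F] (k : ℕ) (v : Fin (k + 1) → Fin k → F), 3 ≤ k →
  k < Fintype.card F → Arc v → (thru v).ncard = (Fintype.card F - 2).descFactorial (k - 2)

/-- **CN0** (curves through a basis).  Uses CN1, NAR.  Proof.  Count the pairs `(A, x)`, `A ∈ thru v`, `x ∈ A` not
proportional to any of the `v i`.  For each `A = cone φ` the vectors `x ∈ A` are the `c φ (nrc k t)`, `c ≠ 0`,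
`t ∈ Option F`, all different, so there are `(q-1)(q+1-k)` such `x`.  On the other hand let `x` be a vector such that
`v 0, ..., v (k-1), x` is a frame (`Arc (Fin.snoc v x)`): `x = ∑ α_j v j` with all `α_j ≠ 0`; there are `(q-1)^k` such `x`,
and for each of them the number of the `A ∈ thru v` with `x ∈ A` is `(q-2).descFactorial (k-2)` by CN1; for the
other `x` there is none unless `x` is proportional to one of the `v i` or zero (the points of a normal rational curve
form an arc, NAR).  So `#(thru v) (q-1)(q+1-k) = (q-1)^k (q-2)...(q-k+1)`, and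
`#(thru v) = (q-1)^(k-1) (q-2)...(q-k+2)`. -/
def S_CN0 : Prop := ∀ (F : Type) [Field F] [Fintype F] (k : ℕ) (v : Fin k → Fin k → F), 3 ≤ k →
  k < Fintype.card F → Arc v →
  (thru v).ncard = (Fintype.card F - 1) ^ (k - 1) * (Fintype.card F - 2).descFactorial (k - 3)

/-! ## Arcs which are on no normal rational curve -/

/-- **PTA** (a point and points of the curve).  Proof.  Let `S` be a set of `k` indices.  If `none ∉ S` use NAR.  Let
`none ∈ S` and let `R ⊆ T` be the set of the `k - 1` other ones.  If the `k` vectors are dependent then there is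
`z ≠ 0` with `∑_b z_b x_b = 0` for all of them; `f = ∑_b z_b X^b ≠ 0` has degree `≤ k - 1` and the `k - 1` roots `s ∈ R`,
so `f = c pr R`, `c ≠ 0`, and `0 = ∑_b z_b P_b = fn P f = c fn P (pr R)`, contradiction. -/
def S_PTA : Prop := ∀ (F : Type) [Field F] (k : ℕ) (P : Fin k → F) (T : Finset F), 1 ≤ k →
  (∀ R ⊆ T, R.card + 1 = k → fn P (pr R) ≠ 0) →
  Arc (fun i : Option T => match i with
    | none => P
    | some s => nrc k (some (s : F)))

/-- **POD** (odd order).  Proof.  `P = e_0 + c e_(k-1)`, `T` = the set of the nonzero squares, with `(q-1)/2` elements.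
For `R ⊆ T` with `k - 1` elements, `fn P (pr R) = (-1)^(k-1) ∏_{s ∈ R} s + c`, and `∏ s` is a nonzero square; choose `c`
such that `(-1)^k c` is not a square (there is a nonsquare, as `q` is odd), then `c ≠ 0` and the value is not zero.
`P` is not a multiple of a point of the curve: `k ≥ 3`, `P 0 = 1`, `P 1 = 0`, `P (k-1) = c ≠ 0`: for `t = s` finite the
factor is `1` and `s = 0`, contradiction to `c ≠ 0`; for `t = ∞` the coordinate `0` is zero. -/
def S_POD : Prop := ∀ (F : Type) [Field F] [Fintype F] (k : ℕ), ringChar F ≠ 2 → 3 ≤ k →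
  ∃ (P : Fin k → F) (T : Finset F), 2 * T.card + 1 = Fintype.card F ∧
    (∀ R ⊆ T, R.card + 1 = k → fn P (pr R) ≠ 0) ∧ ∀ t : Option F, ¬ Pr P (nrc k t)

/-- **PEV** (even order).  Proof.  `F` is a vector space over the field with two elements; let `lam : F → ZMod 2` be a
nonzero additive map and `T = {s : lam s = 1}`, with `q/2` elements.  `P = e_(k-2) + c e_(k-1)`,
`fn P (pr R) = -∑_{s ∈ R} s + c` (the coefficients of `X^(k-2)` and `X^(k-1)` of `pr R`, `#R = k - 1`), and
`lam (∑_{s ∈ R} s) = k - 1`; choose `c` with `lam c ≠ k - 1`, then the value is not zero.  `P` is not a multiple of a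
point of the curve: `k ≥ 3`, `P 0 = 0`, so only `t = ∞` is possible, but `P (k-2) = 1`. -/
def S_PEV : Prop := ∀ (F : Type) [Field F] [Fintype F] (k : ℕ), ringChar F = 2 → 3 ≤ k →
  ∃ (P : Fin k → F) (T : Finset F), 2 * T.card = Fintype.card F ∧
    (∀ R ⊆ T, R.card + 1 = k → fn P (pr R) ≠ 0) ∧ ∀ t : Option F, ¬ Pr P (nrc k t)

/-! ## Points of the projective space -/

open scoped LinearAlgebra.Projectivization

/-- a normal rational curve of `PG(k-1, q)`: the image of the set of points `(1, t, ..., t^(k-1))`, `t ∈ F`, and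
`(0, ..., 0, 1)` under a projectivity -/
def IsNRC {F : Type} [Field F] {k : ℕ} (A : Set (ℙ F (Fin k → F))) : Prop :=
  ∃ φ : (Fin k → F) ≃ₗ[F] (Fin k → F), A = {p | ∃ t : Option F, ∃ h : φ (nrc k t) ≠ 0,
    p = Projectivization.mk F (φ (nrc k t)) h}

/-- an arc of `PG(k-1, q)`: at least `k` points, any `k` of which have linearly independent coordinate vectors -/
def IsArcP {F : Type} [Field F] {k : ℕ} (K : Finset (ℙ F (Fin k → F))) : Prop :=
  k ≤ K.card ∧ ∀ S ⊆ K, S.card = k → LinearIndependent F (fun p : S => (p : ℙ F (Fin k → F)).rep)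

/-- **TRA** (translation).  Proof.  `v i` = the representative of the `i`-th point of `K`.  A point `p` is in the normal
rational curve given by `φ` iff `p.rep ∈ cone φ` (`nrc k t ≠ 0` for `k ≥ 1`).  The map which sends a set `A` of points
to `{x | ∃ h : x ≠ 0, Projectivization.mk F x h ∈ A}` is injective, maps the normal rational curves onto the cones,
and those through `K` onto `thru v`. -/
def S_TRA : Prop := ∀ (F : Type) [Field F] [Fintype F] (k n : ℕ) (K : Finset (ℙ F (Fin k → F))), 1 ≤ k →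
  IsArcP K → K.card = n → ∃ v : Fin n → Fin k → F, Arc v ∧
    ({A : Set (ℙ F (Fin k → F)) | IsNRC A ∧ (K : Set (ℙ F (Fin k → F))) ⊆ A}).ncard = (thru v).ncard

end Pool.Agent.Q136.NCC
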