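import Pool.Agent.Q136.NCC.Set
import Pool.Agent.Q136.NCC.PTA
import Pool.Agent.Q136.NCC.TRA
import Pool.Agent.Q166.NCC.MO2
import Pool.Agent.Q285.NCC.MO1
import Pool.Agent.Q285.NCC.MO4
import Pool.Agent.Q25.NCC.MO3
import Pool.Agent.Q25.NCC.UNI
import Pool.Agent.Q25.NCC.EXI
import Pool.Agent.Q182.NCC.CN1
import Pool.Agent.Q185.NCC.CN0

/-!
# Project NCC: all statements proved
-/

set_option autoImplicit false

namespace Pool.Agent.Q136.NCC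

open Pool.Agent.Q136.RNC

theorem nar : S_NAR := Pool.Agent.Q68.RNC.t_NAR

theorem mo1 : S_MO1 := Pool.Agent.Q285.NCC.t_MO1

theorem mo2 : S_MO2 := Pool.Agent.Q166.NCC.t_MO2 nar mo1

theorem mo3 : S_MO3 := Pool.Agent.Q25.NCC.t_MO3 nar

theorem mo4 : S_MO4 := Pool.Agent.Q285.NCC.t_MO4 mo1 mo2 mo3

theorem fra : S_FRA := Pool.Agent.Q25.NCC.t_FRA

theorem uni : S_UNI := Pool.Agent.Q25.NCC.t_UNI mo4

theorem exi : S_EXI := Pool.Agent.Q25.NCC.t_EXI fra nar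

theorem cn1 : S_CN1 := Pool.Agent.Q182.NCC.t_CN1 mo1 mo2 mo4 fra

theorem cn0 : S_CN0 := Pool.Agent.Q185.NCC.t_CN0 cn1 nar

theorem pta : S_PTA := t_PTA nar

theorem tra : S_TRA := t_TRA

end Pool.Agent.Q136.NCC
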