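import Pool.Agent.Q136.NCC.Stm
import Pool.Agent.Q136.RNC.DNR

/-!
# Project NCC: assemblies
-/

set_option autoImplicit false

open Finset Polynomial

namespace Pool.Agent.Q136.NCC

open Pool.Agent.Q136.RNC
open scoped LinearAlgebra.Projectivization

theorem descFactorial_eq_prod (q m : ℕ) :
    (q - 2).descFactorial m = ∏ j ∈ Finset.Icc 2 (m + 1), (q - j) := by
  induction m with
  | zero => simp
  | succ m ih =>
    rw [Nat.descFactorial_succ, ih, ← Finset.insert_Icc_right_eq_Icc_add_one (by omega : 2 ≤ m + 1 + 1),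
      Finset.prod_insert (by simp)]
    congr 1
    omega

theorem arc_ne_zero {F : Type} [Field F] {ι : Type} [Fintype ι] {k : ℕ} {v : ι → Fin k → F} (hv : Arc v)
    (hk1 : 1 ≤ k) (hk : k ≤ Fintype.card ι) (i : ι) : v i ≠ 0 := by
  classical
  obtain ⟨S, hS1, hS2⟩ := Finset.exists_superset_card_eq (s := {i}) (n := k) (by simpa using hk1) hk
  have hi : i ∈ S := hS1 (by simp)
  have := (hv S hS2).ne_zero ⟨i, hi⟩
  exact this

theorem cone_two {F : Type} [Field F] (φ : (Fin 2 → F) ≃ₗ[F] (Fin 2 → F)) : cone φ = {x | x ≠ 0} := by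
  ext x
  constructor
  · rintro ⟨t, c, hc, he⟩ h0
    rw [h0] at he
    have h1 : φ (nrc 2 t) = 0 := by
      have := congrArg (fun y => c⁻¹ • y) he
      simp only [smul_zero, smul_smul, inv_mul_cancel₀ hc, one_smul] at this
      exact this.symm
    have h2 : nrc (F := F) 2 t = 0 := by
      rw [← LinearEquiv.symm_apply_apply φ (nrc 2 t), h1, map_zero]
    rcases t with _ | s
    · have := congrFun h2 1
      simp [nrc] at this
    · have := congrFun h2 0
      simp [nrc] at this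
  · intro hx
    have hy : φ.symm x ≠ 0 := by
      intro h
      exact hx (by rw [← LinearEquiv.apply_symm_apply φ x, h, map_zero])
    set y := φ.symm x with hy'
    have hx' : x = φ y := by rw [hy', LinearEquiv.apply_symm_apply]
    by_cases h0 : y 0 = 0
    · have h1 : y 1 ≠ 0 := by
        intro h1
        apply hy
        ext i
        fin_cases i
        · exact h0
        · exact h1
      refine ⟨none, y 1, h1, ?_⟩
      rw [hx', ← map_smul]
      congr 1
      ext i
      fin_cases i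
      · simp [nrc, h0]
      · simp [nrc]
    · refine ⟨some (y 1 / y 0), y 0, h0, ?_⟩
      rw [hx', ← map_smul]
      congr 1
      ext i
      fin_cases i
      · simp [nrc]
      · simp [nrc]
        field_simp

theorem thru_two {F : Type} [Field F] {ι : Type} (v : ι → Fin 2 → F) (hv : ∀ i, v i ≠ 0) :
    (thru v).ncard = 1 := by
  rw [Set.ncard_eq_one]
  refine ⟨{x | x ≠ 0}, ?_⟩
  ext A
  constructor
  · rintro ⟨⟨φ, rfl⟩, -⟩
    rw [Set.mem_singleton_iff]
    exact cone_two φ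
  · intro hA
    rw [Set.mem_singleton_iff] at hA
    refine ⟨⟨LinearEquiv.refl F _, ?_⟩, ?_⟩
    · rw [hA, cone_two]
    · intro i
      rw [hA]
      exact hv i

/-- the number of normal rational curves through an arc -/
theorem number_main (hUNI : S_UNI) (hEXI : S_EXI) (hCN1 : S_CN1) (hCN0 : S_CN0) (hTRA : S_TRA)
    (F : Type) [Field F] [Fintype F] (k n : ℕ) (hk : 2 ≤ k) (hq : k < Fintype.card F)
    (K : Finset (ℙ F (Fin k → F))) (hK : IsArcP K) (hn : K.card = n) :
    (k = 2 → {A : Set (ℙ F (Fin k → F)) | IsNRC A ∧ (K : Set (ℙ F (Fin k → F))) ⊆ A}.ncard = 1) ∧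
    (3 ≤ k → n = k → {A : Set (ℙ F (Fin k → F)) | IsNRC A ∧ (K : Set (ℙ F (Fin k → F))) ⊆ A}.ncard =
      (Fintype.card F - 1) ^ (k - 1) * ∏ j ∈ Finset.Icc 2 (k - 2), (Fintype.card F - j)) ∧
    (3 ≤ k → n = k + 1 → {A : Set (ℙ F (Fin k → F)) | IsNRC A ∧ (K : Set (ℙ F (Fin k → F))) ⊆ A}.ncard =
      ∏ j ∈ Finset.Icc 2 (k - 1), (Fintype.card F - j)) ∧
    (n = k + 2 → {A : Set (ℙ F (Fin k → F)) | IsNRC A ∧ (K : Set (ℙ F (Fin k → F))) ⊆ A}.ncard = 1) ∧
    (k + 2 ≤ n → (∃ A : Set (ℙ F (Fin k → F)), IsNRC A ∧ (K : Set (ℙ F (Fin k → F))) ⊆ A) →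
      {A : Set (ℙ F (Fin k → F)) | IsNRC A ∧ (K : Set (ℙ F (Fin k → F))) ⊆ A}.ncard = 1) := by
  classical
  obtain ⟨v, hv, hcard⟩ := hTRA F k n K (by omega) hK hn
  have hkn : k ≤ n := hn ▸ hK.1
  rw [hcard]
  have hsub : k + 2 ≤ n → (thru v).Subsingleton := by
    intro h
    rintro A ⟨⟨φ, rfl⟩, hA⟩ A' ⟨⟨φ', rfl⟩, hA'⟩
    exact hUNI F (Fin n) k v hk (by omega) (by rw [Fintype.card_fin]; exact h) hv φ φ' hA hA'
  refine ⟨?_, ?_, ?_, ?_, ?_⟩
  · rintro rfl
    exact thru_two v (fun i => arc_ne_zero hv (by omega) (by rw [Fintype.card_fin]; exact hkn) i)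
  · rintro h3 rfl
    rw [hCN0 F n v h3 hq hv, descFactorial_eq_prod, show n - 3 + 1 = n - 2 by omega]
  · rintro h3 rfl
    rw [hCN1 F k v h3 hq hv, descFactorial_eq_prod, show k - 2 + 1 = k - 1 by omega]
  · rintro rfl
    rw [Set.ncard_eq_one]
    obtain ⟨φ, hφ⟩ := hEXI F k v hk hv
    refine (hsub (by omega)).eq_empty_or_singleton.resolve_left ?_
    intro h0
    have h1 : cone φ ∈ thru v := ⟨⟨φ, rfl⟩, hφ⟩
    rw [h0] at h1
    exact h1
  · intro h hex
    rw [Set.ncard_eq_one]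
    refine (hsub h).eq_empty_or_singleton.resolve_left ?_
    intro h0
    rw [h0, Set.ncard_empty] at hcard
    have hfin : {A : Set (ℙ F (Fin k → F)) | IsNRC A ∧ (K : Set (ℙ F (Fin k → F))) ⊆ A}.Finite := Set.toFinite _
    rw [Set.ncard_eq_zero hfin] at hcard
    obtain ⟨A, hA⟩ := hex
    have : A ∈ ({A : Set (ℙ F (Fin k → F)) | IsNRC A ∧ (K : Set (ℙ F (Fin k → F))) ⊆ A}) := hA
    rw [hcard] at this
    exact this

theorem arc_comp' {F : Type} [Field F] {ι ι' : Type} {k : ℕ} {v : ι → Fin k → F} (hv : Arc v)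
    (f : ι' → ι) (hf : Function.Injective f) : Arc (fun i => v (f i)) := by
  classical
  intro S hS
  have h := hv (S.map ⟨f, hf⟩) (by rw [Finset.card_map, hS])
  have h2 := h.comp (fun i : S => (⟨f i, by
    rw [Finset.mem_map]
    exact ⟨i, i.2, rfl⟩⟩ : (S.map ⟨f, hf⟩ : Finset ι))) (by
    intro a b hab
    have := congrArg Subtype.val hab
    exact Subtype.ext (hf this))
  exact h2

theorem arc_inj' {F : Type} [Field F] {ι : Type} [Fintype ι] {k : ℕ} {v : ι → Fin k → F} (hv : Arc v)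
    (h2 : 2 ≤ k) (hk : k ≤ Fintype.card ι) (i j : ι) (c : F) (h : v i = c • v j) : i = j := by
  classical
  by_contra hij
  obtain ⟨S, hS1, hS2⟩ := Finset.exists_superset_card_eq (s := {i, j}) (n := k)
    (by rw [Finset.card_pair hij]; exact h2) hk
  have hi : i ∈ S := hS1 (by simp)
  have hj : j ∈ S := hS1 (by simp)
  have hl := hv S hS2
  have hne : (⟨i, hi⟩ : S) ≠ ⟨j, hj⟩ := fun h => hij (congrArg Subtype.val h)
  rw [linearIndependent_iff'] at hl
  have h1 := hl {⟨i, hi⟩, ⟨j, hj⟩} (fun x => if x = ⟨i, hi⟩ then 1 else -c) (by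
    rw [Finset.sum_pair hne, if_pos rfl, if_neg (Ne.symm hne)]
    change (1 : F) • v i + (-c) • v j = 0
    rw [h]
    simp) ⟨i, hi⟩ (by simp)
  rw [if_pos rfl] at h1
  exact one_ne_zero h1

/-- the set of points of an arc of vectors -/
theorem exists_points {F : Type} [Field F] {ι : Type} [Fintype ι] {k : ℕ} {v : ι → Fin k → F} (hv : Arc v)
    (h2 : 2 ≤ k) (hk : k ≤ Fintype.card ι) :
    ∃ K : Finset (ℙ F (Fin k → F)), IsArcP K ∧ K.card = Fintype.card ι ∧
      ∀ φ : (Fin k → F) ≃ₗ[F] (Fin k → F), (K : Set (ℙ F (Fin k → F))) ⊆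
        {p | ∃ t : Option F, ∃ h : φ (nrc k t) ≠ 0, p = Projectivization.mk F (φ (nrc k t)) h} →
        ∀ i, v i ∈ cone φ := by
  classical
  have h0 : ∀ i, v i ≠ 0 := fun i => arc_ne_zero hv (by omega) hk i
  set f : ι → ℙ F (Fin k → F) := fun i => Projectivization.mk F (v i) (h0 i) with hf
  have hinj : Function.Injective f := by
    intro i j hij
    rw [hf] at hij
    simp only at hij
    rw [Projectivization.mk_eq_mk_iff'] at hij
    obtain ⟨c, hc⟩ := hij
    exact arc_inj' hv h2 hk i j c hc.symm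
  have hrep : ∀ i, ∃ c : F, c ≠ 0 ∧ (f i).rep = c • v i := by
    intro i
    obtain ⟨a, ha⟩ := Projectivization.exists_smul_eq_mk_rep F (v i) (h0 i)
    exact ⟨(a : F), a.ne_zero, ha.symm⟩
  refine ⟨univ.image f, ⟨?_, ?_⟩, ?_, ?_⟩
  · rw [Finset.card_image_of_injective _ hinj, Finset.card_univ]
    exact hk
  · intro S hS hSk
    -- indices of `S`
    have hidx : ∀ p : S, ∃ i : ι, f i = p := by
      intro p
      have := hS p.2
      rw [Finset.mem_image] at this
      obtain ⟨i, -, hi⟩ := this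
      exact ⟨i, hi⟩
    choose g hg using hidx
    have hginj : Function.Injective g := by
      intro p p' hpp
      apply Subtype.ext
      rw [← hg p, ← hg p', hpp]
    have hl := arc_comp' hv g hginj
    have hl2 := hl univ (by rw [Finset.card_univ, Fintype.card_coe, hSk])
    have hl3 : LinearIndependent F (fun p : S => v (g p)) := by
      have := hl2.comp (fun p : S => (⟨p, Finset.mem_univ p⟩ : (univ : Finset S))) (by
        intro a b hab
        exact congrArg Subtype.val hab)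
      exact this
    choose c hc hcr using hrep
    have h4 := hl3.units_smul (fun p : S => Units.mk0 (c (g p)) (hc (g p)))
    have h5 : (fun p : S => (p : ℙ F (Fin k → F)).rep) =
        (fun p : S => Units.mk0 (c (g p)) (hc (g p))) • (fun p : S => v (g p)) := by
      funext p
      rw [Pi.smul_apply', ← hg p, hcr (g p)]
      rfl
    rw [h5]
    exact h4
  · rw [Finset.card_image_of_injective _ hinj, Finset.card_univ]
  · intro φ hφ i
    have h1 : f i ∈ ((univ.image f : Finset (ℙ F (Fin k → F))) : Set (ℙ F (Fin k → F))) := by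
      rw [Finset.coe_image]
      exact ⟨i, by simp, rfl⟩
    obtain ⟨t, h, he⟩ := hφ h1
    rw [hf] at he
    simp only at he
    rw [Projectivization.mk_eq_mk_iff'] at he
    obtain ⟨c, hc⟩ := he
    refine ⟨t, c, ?_, hc.symm⟩
    rintro rfl
    rw [zero_smul] at hc
    exact h0 i hc.symm

/-- arcs on no normal rational curve -/
theorem non_main (hUNI : S_UNI) (hPTA : S_PTA) (hPOD : S_POD) (hPEV : S_PEV)
    (F : Type) [Field F] [Fintype F] (k n : ℕ) (hk : 3 ≤ k) (hn : k + 3 ≤ n) (hnq : 2 * n ≤ Fintype.card F + 2) :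
    ∃ K : Finset (ℙ F (Fin k → F)), IsArcP K ∧ K.card = n ∧
      ∀ A : Set (ℙ F (Fin k → F)), IsNRC A → ¬ (K : Set (ℙ F (Fin k → F))) ⊆ A := by
  classical
  obtain ⟨P, T, hT, hfree, hP⟩ : ∃ (P : Fin k → F) (T : Finset F), n ≤ T.card + 1 ∧
      (∀ R ⊆ T, R.card + 1 = k → fn P (pr R) ≠ 0) ∧ ∀ t : Option F, ¬ Pr P (nrc k t) := by
    by_cases h : ringChar F = 2
    · obtain ⟨P, T, h1, h2, h3⟩ := hPEV F k h hk
      exact ⟨P, T, by omega, h2, h3⟩
    · obtain ⟨P, T, h1, h2, h3⟩ := hPOD F k h hk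
      exact ⟨P, T, by omega, h2, h3⟩
  obtain ⟨T', hT', hT'c⟩ := Finset.exists_subset_card_eq (s := T) (n := n - 1) (by omega)
  have harc := hPTA F k P T' (by omega) (fun R hR hc => hfree R (hR.trans hT') hc)
  have hcard : Fintype.card (Option T') = n := by
    rw [Fintype.card_option, Fintype.card_coe, hT'c]
    omega
  obtain ⟨K, hK1, hK2, hK3⟩ := exists_points harc (by omega) (by rw [hcard]; omega)
  refine ⟨K, hK1, hK2.trans hcard, ?_⟩
  rintro A ⟨φ, rfl⟩ hA
  have h1 := hK3 φ hA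
  -- the points of `T'` are on both curves
  have h2 : Arc (fun s : T' => nrc k (some (s : F))) :=
    arc_comp' harc (fun s : T' => (some s : Option T')) (Option.some_injective _)
  have h3 := hUNI F T' k (fun s : T' => nrc k (some (s : F))) (by omega) (by omega)
    (by rw [Fintype.card_coe, hT'c]; omega) h2 φ (LinearEquiv.refl F _)
    (fun s => h1 (some s)) (fun s => ⟨some (s : F), 1, one_ne_zero, by simp⟩)
  have h4 : P ∈ cone φ := h1 none
  rw [h3] at h4
  obtain ⟨t, c, hc, he⟩ := h4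
  exact hP t ⟨c, hc, by simpa using he⟩

end Pool.Agent.Q136.NCC
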