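import Pool.Agent.Q285.NCC.POD

/-!
# Project NCC: points off the curve which form an arc with many points of the curve
-/

set_option autoImplicit false

open Finset Polynomial

namespace Pool.Agent.Q136.NCC

open Pool.Agent.Q136.RNC

theorem card_sq' (F : Type) [Field F] [Fintype F] [DecidableEq F] (hF : ringChar F ≠ 2) :
    2 * (univ.filter (fun s : F => IsSquare s)).card = Fintype.card F + 1 := by
  have h1 := Pool.Agent.Q285.NCC.card_sq F hF
  have h2 : (univ.filter (fun s : F => IsSquare s)) =
      insert 0 (univ.filter (fun s : F => s ≠ 0 ∧ IsSquare s)) := by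
    ext s
    simp only [mem_filter, mem_univ, true_and, mem_insert]
    constructor
    · intro h
      by_cases h0 : s = 0
      · exact Or.inl h0
      · exact Or.inr ⟨h0, h⟩
    · rintro (rfl | h)
      · exact ⟨0, by simp⟩
      · exact h.2
  rw [h2, card_insert_of_notMem (by simp)]
  omega

theorem pr_lead {F : Type} [Field F] {k : ℕ} {R : Finset F} (hRk : R.card + 1 = k) :
    (pr R).coeff (k - 1) = 1 := by
  have h1 : (pr R).natDegree = k - 1 := by
    unfold pr
    rw [natDegree_prod_of_monic _ _ (fun s _ => monic_X_sub_C s)]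
    simp only [natDegree_X_sub_C, sum_const, smul_eq_mul, mul_one]
    omega
  rw [← h1]
  exact monic_prod_of_monic _ _ (fun s _ => monic_X_sub_C s)

theorem pr_zero {F : Type} [Field F] {k : ℕ} {R : Finset F} (hRk : R.card + 1 = k) :
    (pr R).coeff 0 = (-1) ^ (k - 1) * ∏ s ∈ R, s := by
  unfold pr
  rw [coeff_zero_eq_eval_zero, eval_prod]
  have h2 : ∀ s ∈ R, (X - C s : F[X]).eval 0 = -1 * s := by
    intro s _
    simp
  rw [prod_congr rfl h2, prod_mul_distrib, prod_const]
  congr 2
  omega

/-- odd order -/
theorem pod2 (F : Type) [Field F] [Fintype F] (k : ℕ) (hF : ringChar F ≠ 2) (hk : 3 ≤ k) :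
    ∃ (P : Fin k → F) (T : Finset F), 2 * T.card = Fintype.card F + 1 ∧
      (∀ R ⊆ T, R.card + 1 = k → fn P (pr R) ≠ 0) ∧ ∀ t : Option F, ¬ Pr P (nrc k t) := by
  classical
  obtain ⟨ν, hν⟩ := FiniteField.exists_nonsquare hF
  have hν0 : ν ≠ 0 := by
    rintro rfl
    exact hν ⟨0, by simp⟩
  have hc0 : (-1) ^ k * ν ≠ 0 := mul_ne_zero (pow_ne_zero _ (neg_ne_zero.2 one_ne_zero)) hν0
  refine ⟨fun i : Fin k => (if (i : ℕ) = 0 then 1 else 0) +
    (if (i : ℕ) + 1 = k then (-1) ^ k * ν else 0),
    univ.filter (fun s : F => IsSquare s), card_sq' F hF, ?_, ?_⟩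
  · intro R hR hRk
    rw [Pool.Agent.Q285.NCC.fn_two hk]
    rw [pr_lead hRk, pr_zero hRk, mul_one]
    intro h3
    have hsq : IsSquare (∏ s ∈ R, s) := by
      apply Finset.isSquare_prod
      intro s hs
      exact (mem_filter.1 (hR hs)).2
    apply hν
    have h4 : ν = ∏ s ∈ R, s := by
      obtain ⟨j, hj⟩ : ∃ j, k = j + 1 := ⟨k - 1, by omega⟩
      subst hj
      have e : j + 1 - 1 = j := by omega
      rw [e, pow_succ] at h3
      have h5 : (-1 : F) ^ j * (∏ s ∈ R, s - ν) = 0 := by linear_combination h3
      have h6 := (mul_eq_zero.1 h5).resolve_left (pow_ne_zero _ (neg_ne_zero.2 one_ne_zero))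
      linear_combination -h6
    rw [h4]
    exact hsq
  · rintro t ⟨a, ha, hP⟩
    have e0 := congrFun hP ⟨0, by omega⟩
    have e1 := congrFun hP ⟨1, by omega⟩
    have e2 := congrFun hP ⟨k - 1, by omega⟩
    cases t with
    | none =>
      simp only [nrc, Pi.smul_apply, smul_eq_mul] at e0
      have h9 : ¬ (0 + 1 = k) := by omega
      rw [if_pos trivial, if_neg h9, if_neg h9] at e0
      simp at e0
    | some s =>
      simp only [nrc, Pi.smul_apply, smul_eq_mul] at e0 e1 e2
      rw [if_neg (by omega), if_neg (by omega)] at e1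
      rw [if_neg (by omega), if_pos (by omega)] at e2
      have hs : s = 0 := by
        have e3 : a * s = 0 := by
          rw [pow_one] at e1
          linear_combination -e1
        exact (mul_eq_zero.1 e3).resolve_left ha
      rw [hs, zero_pow (by omega), mul_zero, zero_add] at e2
      exact hc0 e2

/-- the functional of the vector `c e_0 + e_1` -/
theorem fn_one {F : Type} [Field F] {k : ℕ} (hk : 3 ≤ k) (c : F) (f : F[X]) :
    fn (fun i : Fin k => (if (i : ℕ) = 0 then c else 0) + (if (i : ℕ) = 1 then 1 else 0)) f =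
      c * f.coeff 0 + f.coeff 1 := by
  unfold fn
  rw [LinearMap.sum_apply]
  have h1 : ∀ i : Fin k, (((if (i : ℕ) = 0 then c else 0) + (if (i : ℕ) = 1 then (1 : F) else 0)) •
      Polynomial.lcoeff F (i : ℕ)) f = (fun j : ℕ => (if j = 0 then c * f.coeff j else 0) +
        (if j = 1 then f.coeff j else 0)) (i : ℕ) := by
    intro i
    rw [LinearMap.smul_apply, Polynomial.lcoeff_apply, smul_eq_mul, add_mul]
    congr 1
    · split_ifs <;> simp
    · split_ifs <;> simp
  rw [sum_congr rfl (fun i _ => h1 i), Fin.sum_univ_eq_sum_range (fun j : ℕ =>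
    (if j = 0 then c * f.coeff j else 0) + (if j = 1 then f.coeff j else 0)) k,
    sum_add_distrib, sum_ite_eq' (range k), sum_ite_eq' (range k),
    if_pos (mem_range.2 (by omega)), if_pos (mem_range.2 (by omega))]

theorem not_nrc_one {F : Type} [Field F] {k : ℕ} (hk : 3 ≤ k) (c : F) (t : Option F) :
    ¬ Pr (fun i : Fin k => (if (i : ℕ) = 0 then c else 0) + (if (i : ℕ) = 1 then 1 else 0)) (nrc k t) := by
  rintro ⟨a, ha, hP⟩
  have e0 := congrFun hP ⟨0, by omega⟩
  have e1 := congrFun hP ⟨1, by omega⟩
  have e2 := congrFun hP ⟨2, by omega⟩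
  cases t with
  | none =>
    simp only [nrc, Pi.smul_apply, smul_eq_mul] at e1
    rw [if_neg (by omega), if_pos trivial, if_neg (by omega)] at e1
    simp at e1
  | some s =>
    simp only [nrc, Pi.smul_apply, smul_eq_mul] at e0 e1 e2
    rw [if_neg (by omega), if_pos trivial] at e1
    rw [if_neg (by omega), if_neg (by omega)] at e2
    have hs : s ^ 2 = 0 := by
      have e3 : a * s ^ 2 = 0 := by linear_combination -e2
      exact (mul_eq_zero.1 e3).resolve_left ha
    have hs0 : s = 0 := by simpa using hs
    rw [hs0] at e1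
    simp at e1

/-- the coefficients of `X ^ 0` and `X ^ 1` of a product of linear factors -/
theorem pr_coeff_one {F : Type} [Field F] (R : Finset F) (h0 : (0 : F) ∉ R) :
    (pr R).coeff 1 = - (pr R).coeff 0 * ∑ s ∈ R, s⁻¹ := by
  classical
  induction R using Finset.induction_on with
  | empty => simp [pr, coeff_one]
  | insert a R ha ih =>
    have h1 : pr (insert a R) = pr R * (X - C a) := by
      unfold pr
      rw [prod_insert ha, mul_comm]
    have ha0 : a ≠ 0 := by
      rintro rfl
      exact h0 (mem_insert_self _ _)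
    rw [h1, mul_sub, coeff_sub, coeff_sub, show (1 : ℕ) = 0 + 1 from rfl, coeff_mul_X, coeff_mul_C, coeff_mul_C,
      coeff_mul_X_zero, zero_add, ih (fun h => h0 (mem_insert_of_mem h)), sum_insert ha]
    field_simp
    ring

/-- even order -/
theorem pev2 (F : Type) [Field F] [Fintype F] (k : ℕ) (hF : ringChar F = 2) (hk : 3 ≤ k) :
    ∃ (P : Fin k → F) (T : Finset F), 2 * T.card = Fintype.card F + 2 ∧
      (∀ R ⊆ T, R.card + 1 = k → fn P (pr R) ≠ 0) ∧ ∀ t : Option F, ¬ Pr P (nrc k t) := by
  classical
  haveI : CharP F 2 := ringChar.of_eq hF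
  letI : Algebra (ZMod 2) F := ZMod.algebra F 2
  obtain ⟨φ, hφ⟩ : ∃ φ : Module.Dual (ZMod 2) F, φ 1 ≠ 0 := by
    by_contra hcon
    push Not at hcon
    exact one_ne_zero ((Module.forall_dual_apply_eq_zero_iff (ZMod 2) (1 : F)).1 hcon)
  have hz : ∀ z : ZMod 2, z = 0 ∨ z = 1 := by decide
  have hφ1 : φ 1 = 1 := (hz (φ 1)).resolve_left hφ
  -- the number of the elements with `φ = 1`
  have hhalf : 2 * (univ.filter (fun u : F => φ u = 1)).card = Fintype.card F := by
    have h1 : (univ.filter (fun u : F => φ u = 1)).card = (univ.filter (fun u : F => ¬ φ u = 1)).card := by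
      apply Finset.card_bij (fun u _ => u + 1)
      · intro u hu
        rw [mem_filter] at hu ⊢
        refine ⟨mem_univ _, ?_⟩
        rw [map_add, hu.2, hφ1]
        decide
      · intro a _ b _ h
        exact add_right_cancel h
      · intro b hb
        rw [mem_filter] at hb
        refine ⟨b + 1, ?_, ?_⟩
        · rw [mem_filter]
          refine ⟨mem_univ _, ?_⟩
          have := (hz (φ b)).resolve_right hb.2
          rw [map_add, this, hφ1, zero_add]
        · rw [add_assoc, CharTwo.add_self_eq_zero, add_zero]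
    have h2 := Finset.card_filter_add_card_filter_not (s := (univ : Finset F)) (fun u : F => φ u = 1)
    rw [card_univ] at h2
    omega
  set T : Finset F := insert 0 ((univ.filter (fun u : F => φ u = 1)).image (fun u => u⁻¹)) with hT
  have hT0 : (0 : F) ∉ (univ.filter (fun u : F => φ u = 1)).image (fun u => u⁻¹) := by
    rw [mem_image]
    rintro ⟨u, hu, h0⟩
    rw [mem_filter] at hu
    rw [inv_eq_zero] at h0
    rw [h0, map_zero] at hu
    exact zero_ne_one hu.2
  refine ⟨fun i : Fin k => (if (i : ℕ) = 0 then (k : F) else 0) + (if (i : ℕ) = 1 then 1 else 0), T, ?_, ?_,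
    not_nrc_one hk (k : F)⟩
  · rw [hT, card_insert_of_notMem hT0, card_image_of_injective _ inv_injective]
    omega
  · intro R hR hRk
    rw [fn_one hk]
    by_cases h0 : (0 : F) ∈ R
    · have h1 : pr R = pr (R.erase 0) * X := by
        unfold pr
        rw [← Finset.mul_prod_erase R _ h0, C_0, sub_zero, mul_comm]
      rw [h1, coeff_mul_X_zero, mul_zero, zero_add, show (1 : ℕ) = 0 + 1 from rfl, coeff_mul_X,
        pr_zero (k := (R.erase 0).card + 1) rfl]
      refine mul_ne_zero (pow_ne_zero _ (neg_ne_zero.2 one_ne_zero)) (Finset.prod_ne_zero_iff.2 ?_)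
      intro s hs
      exact (mem_erase.1 hs).1
    · rw [pr_coeff_one R h0]
      have hp : (pr R).coeff 0 ≠ 0 := by
        rw [pr_zero hRk]
        refine mul_ne_zero (pow_ne_zero _ (neg_ne_zero.2 one_ne_zero)) (Finset.prod_ne_zero_iff.2 ?_)
        intro s hs h
        exact h0 (h ▸ hs)
      intro h3
      have h4 : (pr R).coeff 0 * ((k : F) - ∑ s ∈ R, s⁻¹) = 0 := by linear_combination h3
      have h5 := sub_eq_zero.1 ((mul_eq_zero.1 h4).resolve_left hp)
      have h6 := congrArg φ h5
      rw [map_sum] at h6
      have h7 : ∀ s ∈ R, φ s⁻¹ = 1 := by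
        intro s hs
        have := hR hs
        rw [hT, mem_insert, mem_image] at this
        rcases this with h | ⟨u, hu, rfl⟩
        · exact absurd (h ▸ hs) h0
        · rw [inv_inv]
          exact (mem_filter.1 hu).2
      rw [sum_congr rfl h7, sum_const, nsmul_eq_mul, mul_one] at h6
      have h8 : φ (k : F) = (k : ZMod 2) := by
        rw [← nsmul_one k, map_nsmul, hφ1, nsmul_one]
      rw [h8, ← hRk] at h6
      push_cast at h6
      have : (1 : ZMod 2) = 0 := by linear_combination h6
      exact one_ne_zero this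

/-- plane case, even order: the nucleus and all points of the conic but one -/
theorem pev4 (F : Type) [Field F] [Fintype F] (hF : ringChar F = 2) :
    ∃ (P : Fin 3 → F), (∀ R : Finset F, R.card + 1 = 3 → fn P (pr R) ≠ 0) ∧
      ∀ t : Option F, ¬ Pr P (nrc 3 t) := by
  classical
  haveI : CharP F 2 := ringChar.of_eq hF
  refine ⟨fun i : Fin 3 => (if (i : ℕ) = 0 then 0 else 0) + (if (i : ℕ) = 1 then 1 else 0), ?_,
    not_nrc_one (by norm_num) 0⟩
  intro R hR
  rw [fn_one (by norm_num)]
  obtain ⟨a, b, hab, rfl⟩ := Finset.card_eq_two.1 (by omega : R.card = 2)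
  have h1 : pr ({a, b} : Finset F) = (X - C a) * (X - C b) := by
    unfold pr
    rw [prod_pair hab]
  have h2 : (X - C a) * (X - C b) = X ^ 2 - C (a + b) * X + C (a * b) := by
    rw [C_add, C_mul]
    ring
  rw [h1, h2]
  simp only [coeff_add, coeff_sub, coeff_X_pow, coeff_C_mul, coeff_X, coeff_C]
  norm_num
  intro h3
  apply hab
  have h4 : a + b = 0 := by
    have h5 : (2 : F) = 0 := CharTwo.two_eq_zero
    linear_combination h3 + (a + b) * h5
  exact (CharTwo.add_eq_zero).1 h4

/-- the functional of a combination of points of the curve -/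
theorem fn_comb {F : Type} [Field F] {k : ℕ} (T : Finset F) (w : F → F) (f : F[X]) (hf : f.natDegree < k) :
    fn (fun i : Fin k => ∑ x ∈ T, w x * x ^ (i : ℕ)) f = ∑ x ∈ T, w x * f.eval x := by
  unfold fn
  rw [LinearMap.sum_apply]
  have h1 : ∀ x ∈ T, w x * f.eval x = ∑ i : Fin k, w x * x ^ (i : ℕ) * f.coeff (i : ℕ) := by
    intro x _
    rw [eval_eq_sum_range' hf, mul_sum, ← Fin.sum_univ_eq_sum_range (fun j => w x * (f.coeff j * x ^ j))]
    exact sum_congr rfl (fun i _ => by ring)
  rw [sum_congr rfl h1, sum_comm]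
  refine sum_congr rfl (fun i _ => ?_)
  rw [LinearMap.smul_apply, Polynomial.lcoeff_apply, smul_eq_mul, sum_mul]

/-- functions orthogonal to the polynomials of degree at most `e` -/
theorem quad_of_orth {F : Type} [Field F] [DecidableEq F] (T : Finset F) (w : F → F) (d : ℕ)
    (h : ∀ g : F[X], g.natDegree + d + 2 ≤ T.card →
      ∑ x ∈ T, (w x / ∏ y ∈ T.erase x, (x - y)) * g.eval x = 0) :
    ∃ Q : F[X], Q.natDegree ≤ d ∧ ∀ x ∈ T, Q.eval x = w x := by
  set Q := Lagrange.interpolate T id w with hQ
  have hinj : Set.InjOn (id : F → F) (T : Set F) := Function.injective_id.injOn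
  have hev : ∀ x ∈ T, Q.eval x = w x := fun x hx => Lagrange.eval_interpolate_at_node w hinj hx
  refine ⟨Q, ?_, hev⟩
  by_contra hcon
  push Not at hcon
  have hdeg : Q.degree < T.card := Lagrange.degree_interpolate_lt w hinj
  have hQ0 : Q ≠ 0 := by
    intro h0
    rw [h0] at hcon
    simp at hcon
  have hnd : Q.natDegree < T.card := (natDegree_lt_iff_degree_lt hQ0).2 hdeg
  set j := T.card - 1 - Q.natDegree with hj
  have h1 := h (X ^ j) (by rw [natDegree_X_pow]; omega)
  have h2 : (Q * X ^ j).degree < (T.card : WithBot ℕ) := by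
    rw [degree_eq_natDegree (mul_ne_zero hQ0 (pow_ne_zero _ X_ne_zero)),
      natDegree_mul hQ0 (pow_ne_zero _ X_ne_zero), natDegree_X_pow]
    exact_mod_cast (by omega : Q.natDegree + j < T.card)
  have h3 := Lagrange.coeff_eq_sum hinj h2
  have h4 : (Q * X ^ j).coeff (T.card - 1) = Q.leadingCoeff := by
    rw [show T.card - 1 = Q.natDegree + j by omega, coeff_mul_X_pow]
    rfl
  rw [h4] at h3
  apply (leadingCoeff_ne_zero.2 hQ0)
  rw [h3, ← h1]
  refine sum_congr rfl (fun x hx => ?_)
  simp only [id, eval_mul, eval_pow, eval_X, hev x hx]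
  ring

/-- even order: `k + 2` points of the curve and a further point -/
theorem pev3 (F : Type) [Field F] [Fintype F] (k : ℕ) (hF : ringChar F = 2) (hk : 3 ≤ k) (T : Finset F)
    (hT : T.card = k + 2) :
    ∃ (P : Fin k → F), (∀ R ⊆ T, R.card + 1 = k → fn P (pr R) ≠ 0) ∧ ∀ t : Option F, ¬ Pr P (nrc k t) := by
  classical
  haveI : CharP F 2 := ringChar.of_eq hF
  have hsq : ∀ x : F, ∃ y : F, y ^ 2 = x := by
    intro x
    obtain ⟨y, hy⟩ := FiniteField.isSquare_of_char_two hF x
    exact ⟨y, by rw [hy]; ring⟩
  choose r hr using hsq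
  have hrinj : Function.Injective r := by
    intro a b hab
    rw [← hr a, ← hr b, hab]
  -- no polynomial relation
  have hrel : ∀ S : Finset F, ∀ f : F[X], f ≠ 0 → (∀ x ∈ S, f.eval (r x) = 0) → S.card ≤ f.natDegree := by
    intro S f hf h
    have h1 : (S.image r).card ≤ f.natDegree := by
      refine Polynomial.card_le_degree_of_subset_roots (p := f) ?_
      intro y hy
      have hy' : y ∈ S.image r := hy
      rw [mem_image] at hy'
      obtain ⟨x, hx, rfl⟩ := hy'
      exact (mem_roots hf).2 (h x hx)
    rwa [card_image_of_injective _ hrinj] at h1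
  set w : F → F := fun x => r x / ∏ y ∈ T.erase x, (x - y) with hw
  have hinjT : Set.InjOn (id : F → F) (T : Set F) := Function.injective_id.injOn
  refine ⟨fun i : Fin k => ∑ x ∈ T, w x * x ^ (i : ℕ), ?_, ?_⟩
  · intro R hR hRk h0
    have hprd : (pr R).natDegree = k - 1 := by
      unfold pr
      rw [natDegree_prod_of_monic _ _ (fun s _ => monic_X_sub_C s)]
      simp only [natDegree_X_sub_C, sum_const, smul_eq_mul, mul_one]
      omega
    rw [fn_comb T w (pr R) (by omega)] at h0
    have hM : (T \ R).card = 3 := by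
      rw [card_sdiff_of_subset hR]
      omega
    set Q := Lagrange.interpolate (T \ R) id r with hQ
    have hinj : Set.InjOn (id : F → F) ((T \ R : Finset F) : Set F) := Function.injective_id.injOn
    have hev : ∀ x ∈ T \ R, Q.eval x = r x := fun x hx => Lagrange.eval_interpolate_at_node r hinj hx
    have hdeg : Q.degree < ((T \ R).card : WithBot ℕ) := Lagrange.degree_interpolate_lt r hinj
    have hQ2 : Q.natDegree ≤ 2 := by
      rw [hM] at hdeg
      exact natDegree_le_iff_degree_le.2 (Order.le_of_lt_succ hdeg)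
    have hG : (Q * pr R).degree < (T.card : WithBot ℕ) := by
      have h1 : (Q * pr R).natDegree ≤ k + 1 := by
        refine natDegree_mul_le.trans ?_
        omega
      refine lt_of_le_of_lt (degree_le_of_natDegree_le h1) ?_
      rw [hT]
      exact_mod_cast (by omega : k + 1 < k + 2)
    have h3 := Lagrange.coeff_eq_sum hinjT hG
    have h4 : (Q * pr R).coeff (T.card - 1) = Q.coeff 2 := by
      rw [hT, show k + 2 - 1 = 2 + (k - 1) by omega, coeff_mul_add_eq_of_natDegree_le hQ2 hprd.le, pr_lead hRk, mul_one]
    have h5 : ∑ x ∈ T, (Q * pr R).eval (id x) / ∏ y ∈ T.erase x, (id x - id y) = 0 := by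
      rw [← h0]
      refine sum_congr rfl (fun x hx => ?_)
      simp only [id, eval_mul]
      by_cases hxR : x ∈ R
      · have h6 : (pr R).eval x = 0 := by
          unfold pr
          rw [eval_prod]
          exact prod_eq_zero hxR (by simp)
        rw [h6, mul_zero, mul_zero, zero_div]
      · rw [hev x (mem_sdiff.2 ⟨hx, hxR⟩), hw]
        ring
    rw [h5, h4] at h3
    -- `Q` has degree at most one
    have hQ1 : Q.natDegree ≤ 1 := by
      by_contra hcon
      have h7 : Q.natDegree = 2 := by omega
      have h8 : Q.leadingCoeff = 0 := by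
        rw [leadingCoeff, h7, h3]
      rw [leadingCoeff_eq_zero] at h8
      rw [h8] at h7
      simp at h7
    have hf0 : expand F 2 Q - X ≠ 0 := by
      intro h
      have := congrArg (fun f : F[X] => f.coeff 1) h
      simp only [coeff_sub, coeff_expand (by norm_num : 0 < 2), coeff_X, coeff_zero] at this
      norm_num at this
    have h9 := hrel (T \ R) (expand F 2 Q - X) hf0 (by
      intro x hx
      rw [eval_sub, expand_eval, hr, eval_X, hev x hx, sub_self])
    have h10 : (expand F 2 Q - X).natDegree ≤ 2 := by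
      refine (natDegree_sub_le _ _).trans ?_
      rw [natDegree_expand, natDegree_X]
      omega
    omega
  · rintro t ⟨c, hc, hP⟩
    cases t with
    | none =>
      obtain ⟨Q, hQ2, hQ⟩ := quad_of_orth T r 2 (by
        intro g hg
        rw [hT] at hg
        have h1 := fn_comb T w g (k := k) (by omega)
        rw [hP] at h1
        change ∑ x ∈ T, w x * g.eval x = 0
        rw [← h1]
        unfold fn
        rw [LinearMap.sum_apply]
        refine sum_eq_zero (fun i _ => ?_)
        rw [LinearMap.smul_apply, Polynomial.lcoeff_apply, Pi.smul_apply, smul_eq_mul, smul_eq_mul]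
        by_cases hi : (i : ℕ) + 1 = k
        · rw [coeff_eq_zero_of_natDegree_lt (by omega), mul_zero]
        · simp [nrc, hi])
      have hf0 : expand F 2 Q - X ≠ 0 := by
        intro h
        have := congrArg (fun f : F[X] => f.coeff 1) h
        simp only [coeff_sub, coeff_expand (by norm_num : 0 < 2), coeff_X, coeff_zero] at this
        norm_num at this
      have h9 := hrel T (expand F 2 Q - X) hf0 (by
        intro x hx
        rw [eval_sub, expand_eval, hr, eval_X, hQ x hx, sub_self])
      have h10 : (expand F 2 Q - X).natDegree ≤ 4 := by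
        refine (natDegree_sub_le _ _).trans ?_
        rw [natDegree_expand, natDegree_X]
        omega
      omega
    | some s =>
      obtain ⟨Q, hQ2, hQ⟩ := quad_of_orth T (fun x => r x * (x - s)) 2 (by
        intro g hg
        rw [hT] at hg
        have hd : ((X - C s) * g).natDegree < k := by
          refine lt_of_le_of_lt natDegree_mul_le ?_
          rw [natDegree_X_sub_C]
          omega
        have h1 := fn_comb T w ((X - C s) * g) hd
        rw [hP] at h1
        have h2 : fn (c • nrc k (some s)) ((X - C s) * g) = c * ((X - C s) * g).eval s := by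
          have h3 := Fin.sum_univ_eq_sum_range (fun j : ℕ => c * ((((X : F[X]) - C s) * g).coeff j * s ^ j)) k
          unfold fn
          rw [LinearMap.sum_apply, eval_eq_sum_range' hd, mul_sum, ← h3]
          refine sum_congr rfl (fun i _ => ?_)
          rw [LinearMap.smul_apply, Polynomial.lcoeff_apply, Pi.smul_apply, smul_eq_mul, smul_eq_mul]
          simp only [nrc]
          ring
        rw [h2, eval_mul, eval_sub, eval_X, eval_C, sub_self, zero_mul, mul_zero] at h1
        rw [h1]
        refine sum_congr rfl (fun x _ => ?_)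
        simp only [hw, eval_mul, eval_sub, eval_X, eval_C]
        ring)
      have hf0 : expand F 2 Q - X ^ 3 + C s * X ≠ 0 := by
        intro h
        have := congrArg (fun f : F[X] => f.coeff 3) h
        simp only [coeff_add, coeff_sub, coeff_expand (by norm_num : 0 < 2), coeff_X_pow, coeff_C_mul, coeff_X,
          coeff_zero] at this
        norm_num at this
      have h9 := hrel T (expand F 2 Q - X ^ 3 + C s * X) hf0 (by
        intro x hx
        rw [eval_add, eval_sub, expand_eval, hr, eval_pow, eval_mul, eval_C, eval_X, hQ x hx]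
        have := hr x
        linear_combination (-r x) * this)
      have h10 : (expand F 2 Q - X ^ 3 + C s * X).natDegree ≤ 4 := by
        refine (natDegree_add_le _ _).trans (max_le ((natDegree_sub_le _ _).trans (max_le ?_ ?_)) ?_)
        · rw [natDegree_expand]
          omega
        · rw [natDegree_X_pow]
          omega
        · exact (natDegree_C_mul_le _ _).trans (natDegree_X_le.trans (by norm_num))
      omega

end Pool.Agent.Q136.NCC
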