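import Pool.Agent.Q136.NCC.Fin
import Pool.Agent.Q136.NCC.Low

/-!
# Project NCC: the set of the sizes for which all arcs are on normal rational curves
-/

set_option autoImplicit false

open Finset Polynomial

namespace Pool.Agent.Q136.NCC

open Pool.Agent.Q136.RNC
open scoped LinearAlgebra.Projectivization

/-- every `n`-arc of `PG(k-1, q)` is contained in a normal rational curve -/
def AllRat (F : Type) [Field F] (k n : ℕ) : Prop :=
  ∀ K : Finset (ℙ F (Fin k → F)), IsArcP K → K.card = n →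
    ∃ A : Set (ℙ F (Fin k → F)), IsNRC A ∧ (K : Set (ℙ F (Fin k → F))) ⊆ A

theorem arcP_mono {F : Type} [Field F] {k : ℕ} {K K' : Finset (ℙ F (Fin k → F))} (hK : IsArcP K) (h : K' ⊆ K)
    (hk : k ≤ K'.card) : IsArcP K' :=
  ⟨hk, fun S hS hc => hK.2 S (hS.trans h) hc⟩

/-- a non-rational arc contains non-rational arcs of all smaller sizes from `k + 3` on -/
theorem non_down (hUNI : S_UNI) (hEXI : S_EXI) (hCN1 : S_CN1) (hCN0 : S_CN0) (hTRA : S_TRA)
    (F : Type) [Field F] [Fintype F] (k n : ℕ) (hk : 2 ≤ k) (hq : k < Fintype.card F) (hn : k + 3 ≤ n)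
    (K : Finset (ℙ F (Fin k → F))) (hK : IsArcP K) (hnK : n ≤ K.card)
    (hnon : ∀ A : Set (ℙ F (Fin k → F)), IsNRC A → ¬ (K : Set (ℙ F (Fin k → F))) ⊆ A) :
    ¬ AllRat F k n := by
  classical
  obtain ⟨K0, hK0, hK0c⟩ := Finset.exists_subset_card_eq (s := K) (n := k + 2) (by omega)
  have harc0 : IsArcP K0 := arcP_mono hK hK0 (by omega)
  obtain ⟨A0, hA0⟩ := Set.ncard_eq_one.1
    ((number_main hUNI hEXI hCN1 hCN0 hTRA F k (k + 2) hk hq K0 harc0 hK0c).2.2.2.1 rfl)
  have hA0' : IsNRC A0 ∧ (K0 : Set (ℙ F (Fin k → F))) ⊆ A0 := by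
    have : A0 ∈ ({A : Set (ℙ F (Fin k → F)) | IsNRC A ∧ (K0 : Set (ℙ F (Fin k → F))) ⊆ A}) := by
      rw [hA0]
      exact rfl
    exact this
  have h1 := hnon A0 hA0'.1
  rw [Set.not_subset] at h1
  obtain ⟨p, hpK, hpA⟩ := h1
  have hpK' : p ∈ K := hpK
  obtain ⟨K', hK'1, hK'2, hK'3⟩ := Finset.exists_subsuperset_card_eq (s := insert p K0) (t := K) (n := n)
    (Finset.insert_subset hpK' hK0) ((Finset.card_insert_le _ _).trans (by omega)) hnK
  intro hall
  obtain ⟨A, hA1, hA2⟩ := hall K' (arcP_mono hK hK'2 (by omega)) hK'3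
  have h2 : A ∈ ({A : Set (ℙ F (Fin k → F)) | IsNRC A ∧ (K0 : Set (ℙ F (Fin k → F))) ⊆ A}) := by
    refine ⟨hA1, fun x hx => hA2 (hK'1 (Finset.mem_insert_of_mem ?_))⟩
    exact hx
  rw [hA0] at h2
  have h3 : A = A0 := h2
  apply hpA
  rw [← h3]
  exact hA2 (hK'1 (Finset.mem_insert_self _ _))

/-- a point off the curve and points of the curve: a non-rational arc -/
theorem non_of (hUNI : S_UNI) (hPTA : S_PTA) (F : Type) [Field F] [Fintype F] (k : ℕ) (hk : 3 ≤ k)
    (hq : k < Fintype.card F)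
    (P : Fin k → F) (T : Finset F) (hT : k + 2 ≤ T.card)
    (hfree : ∀ R ⊆ T, R.card + 1 = k → fn P (pr R) ≠ 0) (hP : ∀ t : Option F, ¬ Pr P (nrc k t)) :
    ∃ K : Finset (ℙ F (Fin k → F)), IsArcP K ∧ K.card = T.card + 1 ∧
      ∀ A : Set (ℙ F (Fin k → F)), IsNRC A → ¬ (K : Set (ℙ F (Fin k → F))) ⊆ A := by
  classical
  have harc := hPTA F k P T (by omega) hfree
  have hcard : Fintype.card (Option T) = T.card + 1 := by
    rw [Fintype.card_option, Fintype.card_coe]
  obtain ⟨K, hK1, hK2, hK3⟩ := exists_points harc (by omega) (by rw [hcard]; omega)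
  refine ⟨K, hK1, hK2.trans hcard, ?_⟩
  rintro A ⟨φ, rfl⟩ hA
  have h1 := hK3 φ hA
  -- the points of `T` are on both curves
  have h2 : Arc (fun s : T => nrc k (some (s : F))) :=
    arc_comp' harc (fun s : T => (some s : Option T)) (Option.some_injective _)
  have h3 := hUNI F T k (fun s : T => nrc k (some (s : F))) (by omega) (by omega)
    (by rw [Fintype.card_coe]; omega) h2 φ (LinearEquiv.refl F _)
    (fun s => h1 (some s)) (fun s => ⟨some (s : F), 1, one_ne_zero, by simp⟩)
  have h4 : P ∈ cone φ := h1 none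
  rw [h3] at h4
  obtain ⟨t, c, hc, he⟩ := h4
  exact hP t ⟨c, hc, by simpa using he⟩

/-- all arcs with at most `k + 2` points are rational -/
theorem all_small (hUNI : S_UNI) (hEXI : S_EXI) (hCN1 : S_CN1) (hCN0 : S_CN0) (hTRA : S_TRA)
    (F : Type) [Field F] [Fintype F] (k n : ℕ) (hk : 3 ≤ k) (hq : k < Fintype.card F) (hn : n ≤ k + 2) :
    AllRat F k n := by
  classical
  intro K hK hc
  have hm := number_main hUNI hEXI hCN1 hCN0 hTRA F k n (by omega) hq K hK hc
  have hkn : k ≤ n := hc ▸ hK.1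
  have hpos : 0 < ({A : Set (ℙ F (Fin k → F)) | IsNRC A ∧ (K : Set (ℙ F (Fin k → F))) ⊆ A}).ncard := by
    rcases (by omega : n = k ∨ n = k + 1 ∨ n = k + 2) with h | h | h
    · rw [hm.2.1 hk h]
      refine Nat.mul_pos (pow_pos (by omega) _) (Finset.prod_pos ?_)
      intro j hj
      rw [Finset.mem_Icc] at hj
      omega
    · rw [hm.2.2.1 hk h]
      refine Finset.prod_pos ?_
      intro j hj
      rw [Finset.mem_Icc] at hj
      omega
    · rw [hm.2.2.2.1 h]
      exact one_pos
  obtain ⟨A, hA⟩ := Set.nonempty_of_ncard_ne_zero (by omega :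
    ({A : Set (ℙ F (Fin k → F)) | IsNRC A ∧ (K : Set (ℙ F (Fin k → F))) ⊆ A}).ncard ≠ 0)
  exact ⟨A, hA⟩

/-- sizes which are not in the set -/
theorem not_all (hUNI : S_UNI) (hEXI : S_EXI) (hCN1 : S_CN1) (hCN0 : S_CN0) (hTRA : S_TRA) (hPTA : S_PTA)
    (F : Type) [Field F] [Fintype F] (k n : ℕ) (hk : 3 ≤ k) (hq : k < Fintype.card F) (hn : k + 3 ≤ n)
    (h : 2 * n ≤ Fintype.card F + 3 ∨ (Even (Fintype.card F) ∧ (2 * n ≤ Fintype.card F + 4 ∨
      (n = k + 3 ∧ n ≤ Fintype.card F + 1) ∨ (k = 3 ∧ n ≤ Fintype.card F + 1)))) :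
    ¬ AllRat F k n := by
  classical
  have hev : Even (Fintype.card F) → ringChar F = 2 := by
    intro h2
    exact (FiniteField.even_card_iff_char_two).2 (Nat.even_iff.1 h2)
  have hgo : ∀ (P : Fin k → F) (T : Finset F), k + 2 ≤ T.card → n ≤ T.card + 1 →
      (∀ R ⊆ T, R.card + 1 = k → fn P (pr R) ≠ 0) → (∀ t : Option F, ¬ Pr P (nrc k t)) → ¬ AllRat F k n := by
    intro P T h1 h2 h3 h4
    obtain ⟨K, hK1, hK2, hK3⟩ := non_of hUNI hPTA F k hk hq P T h1 h3 h4
    exact non_down hUNI hEXI hCN1 hCN0 hTRA F k n (by omega) hq hn K hK1 (by omega) hK3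
  by_cases hF : ringChar F = 2
  · have hq2 : Fintype.card F % 2 = 0 := FiniteField.even_card_iff_char_two.1 hF
    rcases (by omega : 2 * n ≤ Fintype.card F + 4 ∨ ¬ 2 * n ≤ Fintype.card F + 4) with h1 | h1
    · obtain ⟨P, T, h2, h3, h4⟩ := pev2 F k hF hk
      exact hgo P T (by omega) (by omega) h3 h4
    · rcases h with h | ⟨-, h | h | h⟩
      · omega
      · omega
      · obtain ⟨T, hT⟩ := Finset.exists_subset_card_eq (s := (univ : Finset F)) (n := k + 2)
          (by rw [card_univ]; omega)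
        obtain ⟨P, h3, h4⟩ := pev3 F k hF hk T hT.2
        exact hgo P T (by omega) (by omega) h3 h4
      · obtain ⟨rfl, h5⟩ := h
        obtain ⟨P, h3, h4⟩ := pev4 F hF
        exact hgo P univ (by rw [card_univ]; omega) (by rw [card_univ]; omega) (fun R _ => h3 R) h4
  · have hne : ¬ Even (Fintype.card F) := fun h2 => hF (hev h2)
    have h1 : 2 * n ≤ Fintype.card F + 3 := by
      rcases h with h | h
      · exact h
      · exact absurd h.1 hne
    obtain ⟨P, T, h2, h3, h4⟩ := pod2 F k hF hk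
    exact hgo P T (by omega) (by omega) h3 h4

/-- the structure of the set -/
theorem set_main (hUNI : S_UNI) (hEXI : S_EXI) (hCN1 : S_CN1) (hCN0 : S_CN0) (hTRA : S_TRA) (hPTA : S_PTA)
    (F : Type) [Field F] [Fintype F] (k : ℕ) (hk : 3 ≤ k) (hq : k < Fintype.card F) :
    ∃ N : ℕ, (∀ n, k ≤ n → n ≤ Fintype.card F → (AllRat F k n ↔ (n ≤ k + 2 ∨ N < n))) ∧
      Fintype.card F + 2 ≤ 2 * N ∧ (Odd (Fintype.card F) → Fintype.card F + 3 ≤ 2 * N) ∧
      (Even (Fintype.card F) → Fintype.card F + 4 ≤ 2 * N ∧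
        (k + 3 ≤ Fintype.card F → k + 3 ≤ N) ∧ (k = 3 → Fintype.card F ≤ N)) := by
  classical
  set q := Fintype.card F with hqdef
  -- the lower bound
  set L : ℕ := if Even q then (if k = 3 then q + 1 else max ((q + 4) / 2) (min (k + 3) (q + 1))) else (q + 3) / 2
    with hL
  have hLno : ∀ n, k + 3 ≤ n → n ≤ L → ¬ AllRat F k n := by
    intro n h1 h2
    refine not_all hUNI hEXI hCN1 hCN0 hTRA hPTA F k n hk hq h1 ?_
    rw [hL] at h2
    split_ifs at h2 with h3 h4
    · exact Or.inr ⟨h3, Or.inr (Or.inr ⟨h4, h2⟩)⟩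
    · rcases le_max_iff.1 h2 with h5 | h5
      · exact Or.inr ⟨h3, Or.inl (by omega)⟩
      · refine Or.inr ⟨h3, Or.inr (Or.inl ⟨?_, ?_⟩)⟩
        · have := h5.trans (min_le_left _ _)
          omega
        · exact h5.trans (min_le_right _ _)
    · exact Or.inl (by omega)
  set B : Finset ℕ := (Finset.Icc (k + 3) q).filter (fun n => ¬ AllRat F k n) with hB
  refine ⟨max (B.sup id) L, ?_, ?_, ?_, ?_⟩
  · intro n hkn hnq
    constructor
    · intro hall
      by_cases hn : n ≤ k + 2
      · exact Or.inl hn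
      · right
        rw [max_lt_iff]
        constructor
        · rw [Finset.sup_lt_iff (by rw [bot_eq_zero]; omega)]
          intro m hm
          rw [hB, mem_filter, Finset.mem_Icc] at hm
          by_contra hcon
          have hcon' : n ≤ m := not_lt.1 hcon
          apply hm.2
          intro K hK hc
          by_contra hno
          push Not at hno
          exact non_down hUNI hEXI hCN1 hCN0 hTRA F k n (by omega) hq (by omega) K hK (by omega) hno hall
        · by_contra hcon
          exact hLno n (by omega) (by omega) hall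
    · rintro (h | h)
      · exact all_small hUNI hEXI hCN1 hCN0 hTRA F k n hk hq h
      · by_cases hn : n ≤ k + 2
        · exact all_small hUNI hEXI hCN1 hCN0 hTRA F k n hk hq hn
        · by_contra hcon
          have h1 : n ∈ B := by
            rw [hB, mem_filter, Finset.mem_Icc]
            exact ⟨⟨by omega, hnq⟩, hcon⟩
          have h2 : n ≤ B.sup id := Finset.le_sup (f := id) h1
          have h3 := lt_of_le_of_lt (le_max_left (B.sup id) L) h
          omega
  · have h1 : q + 2 ≤ 2 * L := by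
      rw [hL]
      split_ifs with h3 h4
      · omega
      · have := le_max_left ((q + 4) / 2) (min (k + 3) (q + 1))
        omega
      · omega
    have := le_max_right (B.sup id) L
    omega
  · intro ho
    have h1 : q + 3 ≤ 2 * L := by
      rw [hL, if_neg (Nat.not_even_iff_odd.2 ho)]
      obtain ⟨m, hm⟩ := ho
      omega
    have := le_max_right (B.sup id) L
    omega
  · intro he
    have hLr := le_max_right (B.sup id) L
    have he2 := he
    obtain ⟨m, hm⟩ := he2
    by_cases h4 : k = 3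
    · have hLv : L = q + 1 := by rw [hL, if_pos he, if_pos h4]
      refine ⟨by omega, fun _ => by omega, fun _ => by omega⟩
    · have hLv : L = max ((q + 4) / 2) (min (k + 3) (q + 1)) := by rw [hL, if_pos he, if_neg h4]
      have h5 := le_max_left ((q + 4) / 2) (min (k + 3) (q + 1))
      have h6 := le_max_right ((q + 4) / 2) (min (k + 3) (q + 1))
      rw [← hLv] at h5 h6
      refine ⟨by omega, fun h7 => ?_, fun h7 => absurd h7 h4⟩
      have h8 : min (k + 3) (q + 1) = k + 3 := min_eq_left (by omega)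
      omega

end Pool.Agent.Q136.NCC
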